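import Pool.Agent.L5helper10.TV.Fin1

/-! Unconditional lower bounds for the Cesaro means of the variance of primes in short intervals,
with a constant tending to the conjectured one. -/

open MeasureTheory

namespace Pool.Agent.Results.MP_2a816b_nt.CesaroMeanLower

/-- The weighted number of prime powers in the interval of length `H` centred at `x`. -/
noncomputable def psi (x H : ℝ) : ℝ :=
  ∑ᶠ n ∈ {n : ℕ | 1 ≤ n ∧ x - H / 2 ≤ n ∧ (n : ℝ) ≤ x + H / 2}, ArithmeticFunction.vonMangoldt n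

/-- The mean square of the question over `H ≤ x ≤ X`. The range `x < H` is left out: for `x < H / 2`
the interval of length `H` centred at `x` is cut off at `1`, and this range alone would contribute more
than `c H ^ 3 / X` to the mean square over `1 ≤ x ≤ X`. -/
noncomputable def J (X H : ℝ) : ℝ := (1 / X) * ∫ x in H..X, |psi x H - H| ^ 2

/-- The mean square at `X = T ^ α`, `H = T ^ (α - 1)`, so `X / H = T`, divided by `H log (X / H)`.
The question asks whether this ratio tends to `1`. -/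
noncomputable def R (T α : ℝ) : ℝ := J (T ^ α) (T ^ (α - 1)) / (T ^ (α - 1) * Real.log T)

/-- For every `ℓ > 1` and `ε > 0` there is `T₀` such that for all `T ≥ T₀` the integral of
`(ℓ - α) R T α` over `1 ≤ α ≤ ℓ` is at least `(ℓ - 1) ^ 2 / 2 - 1 / 6 - ε`. The conjectured value of
the integral is `(ℓ - 1) ^ 2 / 2 + o(1)`. -/
theorem result : ∀ ℓ ε : ℝ, 1 < ℓ → 0 < ε → ∃ T₀ : ℝ, ∀ T : ℝ, T₀ ≤ T →
    (ℓ - 1) ^ 2 / 2 - 1 / 6 - ε ≤ ∫ α in (1 : ℝ)..ℓ, (ℓ - α) * R T α := by
  intro ℓ ε hℓ hε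
  obtain ⟨T₀, h⟩ := Filter.eventually_atTop.1 (L5helper10.TV.long_avg ℓ ε hℓ hε)
  exact ⟨T₀, h⟩

end Pool.Agent.Results.MP_2a816b_nt.CesaroMeanLower
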