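import Pool.Agent.L5helper10.RM.G16
import Pool.Agent.L5helper10.RM.K15

/-!
# MP_2a816b_nt: the mean square of Q1 in the random sieve model of Banks, Ford and Tao

The random set `R` of Banks, Ford and Tao: for every prime `p` one residue class `a_p` modulo `p` is
chosen at random (uniformly and independently), and `R` consists of the integers `n` which avoid the
classes `a_p` for the primes `p ≤ z(n)`, where `z(n)` is such that the density of `R` near `n` is
`1 / log n`. The mean square of Q1 for the set `R` instead of the primes.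
-/

set_option autoImplicit false

namespace Pool.Agent.Results.MP_2a816b_nt.RandomSieveModel

open Finset MeasureTheory ProbabilityTheory Filter Topology

/-- `V(z) = ∏_{p ≤ z} (1 - 1/p)⁻¹` -/
noncomputable def V (z : ℕ) : ℝ := ∏ p ∈ Icc 1 z with p.Prime, (1 - 1 / (p : ℝ))⁻¹

/-- the integers which avoid the class of `a p` for all primes `p` with `V(p) ≤ log n` -/
def R (a : ℕ → ℕ) : Set ℕ := {n | ∀ p : ℕ, p.Prime → V p ≤ Real.log n → ¬ n ≡ a p [MOD p]}

open Classical in
/-- `∑ log n` over the `n ∈ S` with `x - H/2 ≤ n ≤ x + H/2` -/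
noncomputable def psi (S : Set ℕ) (x H : ℝ) : ℝ :=
  ∑ n ∈ Icc ⌈x - H / 2⌉₊ ⌊x + H / 2⌋₊ with n ∈ S, Real.log n

/-- the mean square `(1/X) ∫_H^X |ψ(x; H) - H|² dx` -/
noncomputable def J (S : Set ℕ) (X H : ℝ) : ℝ := 1 / X * ∫ x in H..X, |psi S x H - H| ^ 2

/-- the limiting function: `1 - θ` up to `θ = e^{-γ}`, and larger than `1 - θ` beyond -/
noncomputable def F (θ : ℝ) : ℝ :=
  if θ ≤ Real.exp (-Real.eulerMascheroniConstant) then 1 - θ
  else 1 + Real.exp (-Real.eulerMascheroniConstant) - 2 * θ + θ * (Real.eulerMascheroniConstant + Real.log θ)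

open Pool.Agent.L5helper10.RM in
lemma V_eq (z : ℕ) : V z = VP z := by
  unfold V VP
  simp only [one_div]

open Pool.Agent.L5helper10.RM in
lemma R_eq (a : ℕ → ℕ) (n : ℕ) : n ∈ R a ↔ inR a n := by
  unfold R inR
  simp only [Set.mem_ofPred_eq, V_eq]

open Pool.Agent.L5helper10.RM in
lemma psi_eq (a : ℕ → ℕ) (x H : ℝ) : psi (R a) x H = psiR a x H := by
  classical
  unfold psi psiR lw
  rw [sum_filter]
  refine sum_congr rfl fun n _ => ?_
  by_cases h : inR a n
  · rw [if_pos ((R_eq a n).mpr h), if_pos h]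
  · rw [if_neg (fun h' => h ((R_eq a n).mp h')), if_neg h]

open Pool.Agent.L5helper10.RM in
lemma J_eq (a : ℕ → ℕ) (X H : ℝ) : J (R a) X H = JR a X H := by
  unfold J JR
  simp only [psi_eq, sq_abs]

/-- The mean square of Q1 in the random sieve model. -/
theorem result (Ω : Type) [MeasurableSpace Ω] (P : Measure Ω) [IsProbabilityMeasure P] (a : ℕ → Ω → ℕ)
    (hmeas : ∀ p, Measurable (a p))
    (hind : iIndepFun (fun p : Nat.Primes => a p) P)
    (hunif : ∀ p r : ℕ, p.Prime → r < p → P.real {ω | a p ω = r} = 1 / p) :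
    ∀ᵐ ω ∂P, ∀ ε : ℝ, 0 < ε →
      -- the law of Q1 holds, up to `o(H)`, for the lengths up to `X^(e^{-γ} - ε)`
      (∀ᶠ X : ℝ in atTop, ∀ H : ℝ, X ^ ε ≤ H → H ≤ X ^ (Real.exp (-Real.eulerMascheroniConstant) - ε) →
        |J (R fun p => a p ω) X H - H * (Real.log X - Real.log H -
            (Real.eulerMascheroniConstant + Real.log (2 * Real.pi)))| ≤ ε * H) ∧
      -- it fails for the lengths from `X^(e^{-γ} + ε)` on
      (∃ c : ℝ, 0 < c ∧ ∀ᶠ X : ℝ in atTop, ∀ H : ℝ,
        X ^ (Real.exp (-Real.eulerMascheroniConstant) + ε) ≤ H → H ≤ X ^ (1 - ε) →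
        (1 + c) * (H * (Real.log X - Real.log H - (Real.eulerMascheroniConstant + Real.log (2 * Real.pi)))) ≤
          J (R fun p => a p ω) X H) ∧
      -- the law in the whole range
      (∀ᶠ X : ℝ in atTop, ∀ H : ℝ, X ^ ε ≤ H → H ≤ X ^ (1 - ε) →
        |J (R fun p => a p ω) X H - H * Real.log X * F (Real.log H / Real.log X)| ≤ ε * (H * Real.log X)) := by
  have hR : Pool.Agent.L5helper10.RM.Rnd P a := ⟨inferInstance, hmeas, hind, hunif⟩
  filter_upwards [hR.ae_all, hR.ae_small_all] with ω hω hS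
  have hA : Pool.Agent.L5helper10.RM.Law (fun p => a p ω) := hω
  have hA2 := Pool.Agent.L5helper10.RM.law2_of hA hS
  intro ε hε
  simp only [J_eq]
  exact ⟨Pool.Agent.L5helper10.RM.J_const hA hA2 ε hε, Pool.Agent.L5helper10.RM.J_long hA ε hε,
    Pool.Agent.L5helper10.RM.J_closed hA ε hε⟩

end Pool.Agent.Results.MP_2a816b_nt.RandomSieveModel
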