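import Pool.Agent.L5helper12.PV.UR
import Pool.Agent.L5helper12.CV.Fin
import Pool.Agent.L5helper10.RTV.D
import Pool.Agent.L5helper12.PV.UH
import Pool.Agent.L5helper30.PVTau
import Pool.Agent.L5helper30.RHofR
import Pool.Agent.L5helper15.PVAG
import Pool.Agent.L5helper12.PV.Win
import Pool.Agent.L5helper13.PVUniq
import Pool.Agent.L5helper66.PVPrime
import Pool.Agent.L5helper66.PVTup
import Pool.Agent.L5helper84.UV.SincB
import Pool.Agent.L5helper12.TW.Diag
import Pool.Agent.L5helper12.TW.Mean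
import Pool.Agent.H437R2.A1

/-!
# The upper half of the mean square formula is equivalent to the Riemann hypothesis and pair correlation

`R T α` is the mean square of the question at `X = T ^ α`, `H = T ^ (α - 1)`, so `X / H = T`, divided
by `H log (X / H)`; the question asks whether `R T α` tends to `1`. We prove, unconditionally, that the
upper half of this, in the mean over every interval of values of `α` in `[1, ∞)`, is equivalent to the
Riemann hypothesis together with Montgomery's pair correlation conjecture, and to the asymptotic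
formula in the mean over every such interval; and that it implies that almost all zeros are simple.

Ideas of the proof.

1. *Riemann hypothesis* (`L5helper30/RHofR`). Telescoping `ψ(x)-x` over short intervals, the bound gives
`∫ |ψ(x) - x| x^(-1-s) dx < ∞` for every `s > 1/2`.

2. *From fixed to proportional lengths* (`L5helper66/PVPrime`). Two overlapping intervals of lengths
`H` and `H + h` differ by one of length `h`, so the mean over the lengths gives an upper bound for the
variance of primes in `(x, x + κ x]` in the mean over `κ T` in every interval, with weight `κ ^ (-3)`.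

3. *The rank inequality* (library `L5helper10/TV`). For the weight `max (A - α) 0`, the sum over the
zeros satisfies a lower bound of the shape `π A ^ 2 - o(1)` for EVERY scale `κ = x / T`, because the sum
over the zeros in a block has few terms; the upper bound for the primes gives at most
`π (A ^ 2 + 1 / 3) + o(1)` in the mean over `x`. The difference is bounded while the weight of a fixed
window is `A - α`; so as `A` grows nothing is lost. The transforms are Lipschitz in `x`, so the asymptotic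
formulas hold for every `x`.

4. *A Tauberian argument* (`L5helper30/PVTau`): the transforms, for all `x > 0`, determine the mean
square over `T ≤ t ≤ 2 T` of the sum over the zeros. So Montgomery's theorem holds for test functions of
every (compact) support.

5. The pair correlation measure is determined by these test functions (`L5helper13/PVUniq`,
`L5helper15/PVAG`).

6. *The converse* (`L5helper12/CV`, `L5helper10/RTV`, after Goldston and Montgomery). An explicit formula
for the Gaussian window transform with the exact multiplier `2 sinh (κ z / 2) / z`, valid at all heights,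
and the limits of the pair sums give the variance of primes in `(x, x + κ x]`; a change of variables
gives the mean over the lengths `H`.
-/

open Filter Topology Complex MeasureTheory

namespace Pool.Agent.Results.MP_2a816b_nt.UpperHalfImpliesRH

/-- The weighted number of prime powers in the interval of length `H` centred at `x`. -/
noncomputable def psi (x H : ℝ) : ℝ :=
  ∑ᶠ n ∈ {n : ℕ | 1 ≤ n ∧ x - H / 2 ≤ n ∧ (n : ℝ) ≤ x + H / 2}, ArithmeticFunction.vonMangoldt n

/-- The mean square of the question over `H ≤ x ≤ X`. The range `x < H` is left out: for `x < H / 2`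
the interval of length `H` centred at `x` is cut off at `1`, and this range alone would contribute more
than `c H ^ 3 / X` to the mean square over `1 ≤ x ≤ X`. -/
noncomputable def J (X H : ℝ) : ℝ := (1 / X) * ∫ x in H..X, |psi x H - H| ^ 2

/-- The mean square at `X = T ^ α`, `H = T ^ (α - 1)`, so `X / H = T`, divided by `H log (X / H)`.
The question asks whether this ratio tends to `1`. -/
noncomputable def R (T α : ℝ) : ℝ := J (T ^ α) (T ^ (α - 1)) / (T ^ (α - 1) * Real.log T)

/-- the nontrivial zeros of the zeta function with ordinate in `[0, T]` -/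
def zeros (T : ℝ) : Set ℂ :=
  {s : ℂ | riemannZeta s = 0 ∧ 0 < s.re ∧ s.re < 1 ∧ 0 ≤ s.im ∧ s.im ≤ T}

/-- the multiplicity of a zero -/
noncomputable def mult (s : ℂ) : ℕ := analyticOrderNatAt riemannZeta s

/-- the number `N(T; α, β)` of the problem: ordered pairs of zeros with ordinates in `[0, T]`,
counted with multiplicity, with difference of the ordinates times `log T / 2π` in `[α, β]` -/
noncomputable def N (T α β : ℝ) : ℕ :=
  ∑ᶠ s ∈ zeros T, ∑ᶠ s' ∈ {s' : ℂ | s' ∈ zeros T ∧
    α ≤ (s.im - s'.im) * Real.log T / (2 * Real.pi) ∧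
    (s.im - s'.im) * Real.log T / (2 * Real.pi) ≤ β}, mult s * mult s'

/-- the number of nontrivial zeros with ordinate in `[0, T]`, counted with multiplicity -/
noncomputable def Ntotal (T : ℝ) : ℕ := ∑ᶠ s ∈ zeros T, mult s

/-- the simple zeros on the critical line with ordinate in `[0, T]` -/
def simpleCritical (T : ℝ) : Set ℂ := {s : ℂ | s ∈ zeros T ∧ s.re = 1 / 2 ∧ mult s = 1}

/-- the pair correlation function (its value at `0` is irrelevant) -/
noncomputable def F (u : ℝ) : ℝ := 1 - (Real.sin (Real.pi * u) / (Real.pi * u)) ^ 2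

/-- `T log T / 2π` -/
noncomputable def X (T : ℝ) : ℝ := T * Real.log T / (2 * Real.pi)

/-- the zeta function has no zero on the real segment `(0, 1)` -/
lemma real_ne {s : ℂ} (h0 : 0 < s.re) (h1 : s.re < 1) (hz : riemannZeta s = 0) : s.im ≠ 0 := by
  have hne : s ≠ 1 := by
    intro h
    rw [h] at h1
    simp at h1
  have h2 : riemannZeta₁ s = 0 := by rw [Pool.Agent.H437R2.z1_of_ne hne, hz, mul_zero]
  exact Pool.Agent.H437R2.z1_zero_im h0 h2

lemma mem_zset (T : ℝ) (s : ℂ) : s ∈ zeros T ↔ s ∈ H370.zset riemannZeta 0 T := by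
  constructor
  · rintro ⟨a1, a2, a3, a4, a5⟩
    exact ⟨a2, a3, lt_of_le_of_ne a4 (Ne.symm (real_ne a2 a3 a1)), a5, a1⟩
  · rintro ⟨a1, a2, a3, a4, a5⟩
    exact ⟨a5, a1, a2, a3.le, a4⟩

/-- the set of zeros is finite -/
theorem zeros_finite (T : ℝ) : (zeros T).Finite := by
  have : zeros T = H370.zset riemannZeta 0 T := Set.ext fun s => mem_zset T s
  rw [this]
  exact H370.zeta_zeros_finite T

open Pool.Agent.L5helper84.UV in
/-- the counting function as a finite sum -/
lemma N_eq (T α β : ℝ) : (N T α β : ℝ) = ∑ s ∈ (zeros_finite T).toFinset,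
    ∑ s' ∈ (zeros_finite T).toFinset, (mult s : ℝ) * (mult s' : ℝ) *
      (if α ≤ (s.im - s'.im) * Real.log T / (2 * Real.pi) ∧
        (s.im - s'.im) * Real.log T / (2 * Real.pi) ≤ β then 1 else 0) := by
  classical
  have hfin := zeros_finite T
  set Z := hfin.toFinset with hZ
  set w : ℂ → ℂ → Prop := fun s s' => α ≤ (s.im - s'.im) * Real.log T / (2 * Real.pi) ∧
      (s.im - s'.im) * Real.log T / (2 * Real.pi) ≤ β with hw
  have hN : N T α β = ∑ s ∈ Z, ∑ s' ∈ Z.filter (fun s' => w s s'), mult s * mult s' := by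
    unfold N
    rw [finsum_mem_eq_finite_toFinset_sum _ hfin]
    refine Finset.sum_congr rfl fun s _ => ?_
    have hfin' : {s' : ℂ | s' ∈ zeros T ∧
        α ≤ (s.im - s'.im) * Real.log T / (2 * Real.pi) ∧
        (s.im - s'.im) * Real.log T / (2 * Real.pi) ≤ β}.Finite := hfin.subset fun _ h => h.1
    rw [finsum_mem_eq_finite_toFinset_sum _ hfin']
    refine Finset.sum_congr ?_ fun _ _ => rfl
    ext s'
    rw [Set.Finite.mem_toFinset, Finset.mem_filter, hZ, Set.Finite.mem_toFinset]
    rfl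
  rw [hN]
  push_cast
  refine Finset.sum_congr rfl fun s _ => ?_
  rw [Finset.sum_filter]
  refine Finset.sum_congr rfl fun s' _ => ?_
  simp only [hw]
  split_ifs <;> simp

open Pool.Agent.L5helper84.UV in
lemma N_Wn {T : ℝ} (hT : 1 < T) (α β : ℝ) : (N T α β : ℝ) =
    Wn (zeros_finite T).toFinset (2 * Real.pi / Real.log T * α)
      (2 * Real.pi / Real.log T * β) := by
  have hL : 0 < Real.log T := Real.log_pos hT
  have hpi := Real.pi_pos
  rw [N_eq]
  unfold Wn
  refine Finset.sum_congr rfl fun s _ => Finset.sum_congr rfl fun s' _ => ?_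
  have e1 : (α ≤ (s.im - s'.im) * Real.log T / (2 * Real.pi)) ↔
      2 * Real.pi / Real.log T * α ≤ s.im - s'.im := by
    rw [le_div_iff₀ (by positivity), div_mul_eq_mul_div, div_le_iff₀ hL, mul_comm α]
  have e2 : ((s.im - s'.im) * Real.log T / (2 * Real.pi) ≤ β) ↔
      s.im - s'.im ≤ 2 * Real.pi / Real.log T * β := by
    rw [div_le_iff₀ (by positivity), div_mul_eq_mul_div, le_div_iff₀ hL, mul_comm β]
  simp only [e1, e2]
  rfl

open Pool.Agent.L5helper84.UV in
lemma N_Pn {T : ℝ} (hT : 1 < T) (β : ℝ) : (N T 0 β : ℝ) =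
    Pn (zeros_finite T).toFinset (2 * Real.pi / Real.log T * β) := by
  rw [N_Wn hT, mul_zero]
  rfl

lemma mem_Z (T : ℝ) (s : ℂ) :
    s ∈ (zeros_finite T).toFinset ↔ s ∈ H370.zset riemannZeta 0 T := by
  rw [Set.Finite.mem_toFinset, mem_zset]


lemma X_WW (T : ℝ) : X T = Pool.Agent.L5helper84.UV.WW T := rfl

open Pool.Agent.L5helper84.UV in
lemma Ntotal_tw (T : ℝ) : (Ntotal T : ℝ) = tw (zeros_finite T).toFinset := by
  unfold Ntotal tw
  rw [finsum_mem_eq_finite_toFinset_sum _ (zeros_finite T)]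
  push_cast
  rfl

open Pool.Agent.L5helper84.UV in
lemma simple_sc (T : ℝ) : ((simpleCritical T).ncard : ℝ) = (sc (zeros_finite T).toFinset).card := by
  classical
  have : simpleCritical T = ((sc (zeros_finite T).toFinset : Finset ℂ) : Set ℂ) := by
    ext s
    unfold simpleCritical sc
    simp only [Set.mem_ofPred_eq, Finset.coe_filter, Set.Finite.mem_toFinset]
    rfl
  rw [this, Set.ncard_coe_finset]

open Pool.Agent.L5helper84.UV in
lemma int_F (a b : ℝ) : ∫ u in a..b, F u = Ph b - Ph a := (Ph_sub a b).symm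

open Pool.Agent.L5helper84.UV in
lemma int_F0 (v : ℝ) : ∫ u in (0 : ℝ)..v, F u = Ph v := rfl

/-! ### The connection with the library -/

open Pool.Agent.L5helper12.PV (UpperR Aa_lim_R)

open Pool.Agent.Y744 (Zt mem_Zt mz Xf Xf_pos PC Nr pr gp Aa AG Nr_all)
open Pool.Agent.L5helper12.TW (Ph_gp PC_zero)

lemma Z_eq (T : ℝ) : (zeros_finite T).toFinset = Zt T := by
  ext s
  rw [mem_Z, mem_Zt]

lemma X_pos {T : ℝ} (hT : 1 < T) : 0 < X T := Xf_pos hT

lemma X_Xf (T : ℝ) : X T = Xf T := rfl

lemma N_PC (T α β : ℝ) : (N T α β : ℝ) = PC T (Set.Icc α β) := by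
  classical
  rw [N_eq, Z_eq]
  unfold Pool.Agent.Y744.PC
  refine Finset.sum_congr rfl fun s _ => Finset.sum_congr rfl fun s' _ => ?_
  show (mult s : ℝ) * (mult s' : ℝ) * _ = (mult s : ℝ) * (mult s' : ℝ) * _
  congr 1
  rw [Set.indicator_apply]
  rfl

lemma N_Nr (T α β : ℝ) : (N T α β : ℝ) / X T = Nr T α β := by
  rw [N_PC]
  rfl

lemma int_gp (a b : ℝ) : ∫ u in a..b, F u = gp b - gp a := by
  rw [int_F, Ph_gp, Ph_gp]

lemma pr_pos {α β : ℝ} (hα : 0 < α) : pr α β = gp β - gp α := by
  unfold Pool.Agent.Y744.pr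
  rw [Set.indicator_of_notMem (by
    rintro ⟨h2, h3⟩
    linarith)]
  ring

lemma I_pos {α β : ℝ} (hα : 0 < α) (hαβ : α < β) : 0 < ∫ u in α..β, F u := by
  rw [int_F]
  linarith [Pool.Agent.L5helper84.UV.Ph_strict hα hαβ]

lemma PC_of_Nr {𝓕 : Filter ℝ} (h : ∀ α β, 0 < α → α < β → Tendsto (fun T => Nr T α β) 𝓕 (𝓝 (pr α β)))
    (α β : ℝ) (hα : 0 < α) (hαβ : α < β) :
    Tendsto (fun T => (N T α β : ℝ) / (X T * ∫ u in α..β, F u)) 𝓕 (𝓝 1) := by
  have h1 := h α β hα hαβ
  have hI := I_pos hα hαβ
  rw [pr_pos hα, ← int_gp] at h1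
  have h2 := h1.div_const (∫ u in α..β, F u)
  rw [div_self hI.ne'] at h2
  refine h2.congr fun T => ?_
  rw [← N_Nr, div_div]

open Pool.Agent.L5helper84.UV in
/-- the diagonal: almost all zeros are simple and on the line -/
lemma simple_of_diag {𝓕 : Filter ℝ} (hF : 𝓕 ≤ atTop)
    (hdiag : ∀ η : ℝ, 0 < η → ∀ᶠ T in 𝓕, (N T 0 0 : ℝ) ≤ (1 + η) * X T) :
    Tendsto (fun T => (N T 0 0 : ℝ) / X T) 𝓕 (𝓝 1) ∧
      Tendsto (fun T => ((simpleCritical T).ncard : ℝ) / Ntotal T) 𝓕 (𝓝 1) := by
  have hXp : ∀ᶠ T in 𝓕, 0 < X T := by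
    filter_upwards [hF (eventually_gt_atTop 1)] with T hT1 using X_pos hT1
  have htot : ∀ ε : ℝ, 0 < ε → ∀ᶠ T in 𝓕, (1 - ε) * X T ≤ tw (zeros_finite T).toFinset ∧
      tw (zeros_finite T).toFinset ≤ (1 + ε) * X T := fun ε hε =>
    hF (tw_asymp (Z := fun T => (zeros_finite T).toFinset) (fun T s => mem_Z T s) hε)
  constructor
  · rw [Metric.tendsto_nhds]
    intro ε hε
    filter_upwards [hdiag (ε / 2) (by positivity), htot (ε / 2) (by positivity), hXp,
      hF (eventually_gt_atTop 1)] with T h1 h2 h3 hT1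
    have h4 := Pn_zero_ge (zeros_finite T).toFinset
    rw [N_Pn hT1, mul_zero] at h1
    rw [N_Pn hT1, mul_zero, Real.dist_eq, abs_lt]
    constructor
    · rw [lt_sub_iff_add_lt, lt_div_iff₀ h3]
      nlinarith [h2.1]
    · rw [sub_lt_iff_lt_add, div_lt_iff₀ h3]
      nlinarith
  · rw [Metric.tendsto_nhds]
    intro ε hε
    have h1 := simple_lower (Z := fun T => (zeros_finite T).toFinset) (fun T s => mem_Z T s) hF
      le_rfl (fun η hη => by
        filter_upwards [hdiag η hη, hF (eventually_gt_atTop 1)] with T h1 hT1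
        rw [N_Pn hT1, mul_zero, X_WW] at h1
        rw [add_zero, mul_comm]
        exact h1) (η := ε / 2) (by positivity)
    filter_upwards [h1, htot (1 / 2) (by norm_num), hXp] with T h2 h3 h4
    have h5 : 0 < tw (zeros_finite T).toFinset := by nlinarith [h3.1]
    rw [Ntotal_tw, simple_sc, Real.dist_eq, abs_lt]
    have h6 := sc_le (zeros_finite T).toFinset
    constructor
    · rw [lt_sub_iff_add_lt, lt_div_iff₀ h5]
      nlinarith
    · rw [sub_lt_iff_lt_add, div_lt_iff₀ h5]
      nlinarith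

lemma diag_of_Aa (h : Tendsto (fun T => Aa T 0) atTop (𝓝 (AG 0))) (η : ℝ) (hη : 0 < η) :
    ∀ᶠ T in atTop, (N T 0 0 : ℝ) ≤ (1 + η) * X T := by
  have h0 : AG 0 = 1 := by
    unfold Pool.Agent.Y744.AG
    rw [if_neg (lt_irrefl _), Pool.Agent.Y744.gp_zero]
    ring
  rw [h0] at h
  filter_upwards [h.eventually (eventually_lt_nhds (by linarith : (1 : ℝ) < 1 + η)),
    eventually_gt_atTop 1] with T h3 hT
  have hX := X_pos hT
  have e : Aa T 0 = (N T 0 0 : ℝ) / X T := by
    unfold Pool.Agent.Y744.Aa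
    rw [PC_zero hT, N_Pn hT, mul_zero, Z_eq, X_Xf]
    ring
  rw [e, div_lt_iff₀ hX] at h3
  exact h3.le

/-- The upper half implies the mean formula for every interval of values of `α`. -/
theorem mean_formula (h : ∀ a b ε : ℝ, 1 ≤ a → a < b → 0 < ε → ∀ᶠ T in atTop, ∫ α in a..b, R T α ≤ b - a + ε) :
    ∀ a b : ℝ, 1 ≤ a → a < b → Tendsto (fun T => ∫ α in a..b, R T α) atTop (𝓝 (b - a)) := by
  have hU : ∀ a b ε : ℝ, 1 ≤ a → a ≤ b → 0 < ε → ∀ᶠ T in atTop, ∫ α in a..b, R T α ≤ b - a + ε := by
    intro a b ε ha hab hε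
    rcases hab.eq_or_lt with h1 | h1
    · rw [h1]
      refine Eventually.of_forall fun T => ?_
      rw [intervalIntegral.integral_same]
      linarith
    · exact h a b ε ha h1 hε
  have low : ∀ b : ℝ, 1 ≤ b → ∀ ε : ℝ, 0 < ε → ∀ᶠ T in atTop, b - 1 - ε ≤ ∫ α in (1 : ℝ)..b, R T α := by
    intro b hb ε hε
    have key : ∀ᶠ T in atTop, b - 1 - 1 / (6 * (b + 1 / ε - b)) - ε / 2 ≤ ∫ α in (1 : ℝ)..b, R T α :=
      L5helper12.PV.upper_half atTop le_rfl (b + 1 / ε) (fun a b ε ha hab _ hε => hU a b ε ha hab hε) b hb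
        (by have : 0 < 1 / ε := by positivity
            linarith) (ε / 2) (by linarith)
    filter_upwards [key] with T hT
    have h1 : 1 / (6 * (b + 1 / ε - b)) ≤ ε / 2 := by
      rw [show 6 * (b + 1 / ε - b) = 6 / ε by ring, one_div_div]
      linarith
    linarith
  intro a b ha hab
  rw [Metric.tendsto_nhds]
  intro ε hε
  filter_upwards [low b (ha.trans hab.le) (ε / 4) (by linarith), hU 1 a (ε / 4) le_rfl ha (by linarith),
    hU a b (ε / 4) ha hab.le (by linarith), eventually_gt_atTop 1] with T h1 h2 h3 hT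
  have h4 := intervalIntegral.integral_add_adjacent_intervals
    (L5helper12.PV.RT_ii T hT 1 a le_rfl ha) (L5helper12.PV.RT_ii T hT a b ha hab.le)
  have h5 : (∫ α in (1 : ℝ)..a, R T α) + (∫ α in a..b, R T α) = ∫ α in (1 : ℝ)..b, R T α := h4
  rw [Real.dist_eq, abs_lt]
  constructor <;> linarith

/-- The mean formula and the pointwise upper half give the formula in the mean of `|R - 1|`. -/
theorem abs_formula (hm : ∀ a b : ℝ, 1 ≤ a → a < b → Tendsto (fun T => ∫ α in a..b, R T α) atTop (𝓝 (b - a)))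
    (b : ℝ) (hb : 1 < b) (hU : ∀ ε : ℝ, 0 < ε → ∀ᶠ T in atTop, ∀ α ∈ Set.Icc (1 : ℝ) b, R T α ≤ 1 + ε) :
    Tendsto (fun T => ∫ α in (1 : ℝ)..b, |R T α - 1|) atTop (𝓝 0) := by
  rw [Metric.tendsto_nhds]
  intro ε hε
  set δ : ℝ := ε / (4 * b) with hδ
  have hb0 : 0 < b := by linarith
  have hδ0 : 0 < δ := by positivity
  have hδb : 2 * δ * (b - 1) ≤ ε / 2 := by
    have e : 2 * δ * b = ε / 2 := by rw [hδ]; field_simp; ring
    have : 0 ≤ 2 * δ := by positivity
    linarith
  have h1 := (hm 1 b le_rfl hb).eventually (eventually_gt_nhds (by linarith : b - 1 - ε / 4 < b - 1))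
  filter_upwards [h1, hU δ hδ0, eventually_gt_atTop 1] with T t1 t2 hT
  have hi : IntervalIntegrable (R T) volume 1 b := L5helper12.PV.RT_ii T hT 1 b le_rfl hb.le
  have hic : ∀ c : ℝ, IntervalIntegrable (fun _ : ℝ => c) volume 1 b := fun c => by simp
  have h2 : ∫ α in (1 : ℝ)..b, |R T α - 1| ≤ ∫ α in (1 : ℝ)..b, ((1 + 2 * δ) - R T α) := by
    apply intervalIntegral.integral_mono_on hb.le (hi.sub (hic 1)).abs ((hic _).sub hi)
    intro α hα
    have h4 := t2 α hα
    rw [abs_le]
    constructor <;> linarith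
  rw [intervalIntegral.integral_sub (hic _) hi, intervalIntegral.integral_const, smul_eq_mul] at h2
  have h3 : 0 ≤ ∫ α in (1 : ℝ)..b, |R T α - 1| :=
    intervalIntegral.integral_nonneg hb.le fun _ _ => abs_nonneg _
  rw [Real.dist_eq, sub_zero, abs_of_nonneg h3]
  linarith

/-- the upper half of the formula, in the mean over the exponent -/
def UpperMean : Prop := ∀ a b ε : ℝ, 1 ≤ a → a < b → 0 < ε → ∀ᶠ T in atTop, ∫ α in a..b, R T α ≤ b - a + ε

/-- the formula, in the mean over the exponent -/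
def MeanFormula : Prop := ∀ a b : ℝ, 1 ≤ a → a < b → Tendsto (fun T => ∫ α in a..b, R T α) atTop (𝓝 (b - a))

/-- the pair correlation conjecture -/
def PairCorrelation : Prop := ∀ α β : ℝ, 0 < α → α < β →
  Tendsto (fun T => (N T α β : ℝ) / (X T * ∫ u in α..β, F u)) atTop (𝓝 1)

/-- the upper half of the formula, uniformly in the exponent -/
def UpperAll : Prop := ∀ b ε : ℝ, 1 < b → 0 < ε → ∀ᶠ T in atTop, ∀ α ∈ Set.Icc (1 : ℝ) b, R T α ≤ 1 + ε

theorem main (h : UpperMean) :
    MeanFormula ∧
    (∀ b : ℝ, 1 < b → (∀ ε : ℝ, 0 < ε → ∀ᶠ T in atTop, ∀ α ∈ Set.Icc (1 : ℝ) b, R T α ≤ 1 + ε) →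
      Tendsto (fun T => ∫ α in (1 : ℝ)..b, |R T α - 1|) atTop (𝓝 0)) ∧
    RiemannHypothesis ∧
    (∀ α β : ℝ, 0 < α → α < β →
      Tendsto (fun T => (N T α β : ℝ) / (X T * ∫ u in α..β, F u)) atTop (𝓝 1)) ∧
    Tendsto (fun T => (N T 0 0 : ℝ) / X T) atTop (𝓝 1) ∧
    Tendsto (fun T => ((simpleCritical T).ncard : ℝ) / Ntotal T) atTop (𝓝 1) := by
  have hR : UpperR := h
  have RH : RiemannHypothesis := Pool.Agent.L5helper30.RHR.rh_of_R hR
  have hAvg : Pool.Agent.L5helper12.PV.AvgStmt := fun K hK hK0 ℓ hℓ hKs B hKB X Q ε hX hXQ hε =>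
    Pool.Agent.L5helper66.PVP.avg_prime hR K hK hK0 ℓ hℓ hKs B hKB X Q ε hX hXQ hε
  have hTup : Pool.Agent.L5helper12.PV.TupStmt := Pool.Agent.L5helper66.PVP.tup hAvg (Pool.Agent.L5helper12.PV.pup RH)
  have hAa : ∀ x : ℝ, Tendsto (fun T => Aa T x) atTop (𝓝 (AG x)) := Aa_lim_R RH
    (fun ν ρ C0 h1 h2 h3 h4 h5 h6 h7 => Pool.Agent.L5helper30.PVTau.tauber ν ρ C0 h1 h2 h3 h4 h5 h6 h7)
    (fun ν ρ hρ νA ν' lam A1 h1 h2 h3 h4 h5 h6 h7 h8 h9 =>
      Pool.Agent.L5helper12.PV.Win.windows ν ρ hρ νA ν' lam A1 h1 h2 h3 h4 h5 h6 h7 h8 h9) hTup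
    (fun κ K hK hκ t ht M h1 h2 => Pool.Agent.L5helper15.PVAG.AG_all hK hκ ht M h1 h2)
    (fun l hl hm x => Pool.Agent.L5helper13.PVUniq.Aa_all hl hm x)
  have hd := simple_of_diag (𝓕 := atTop) le_rfl (fun η hη => diag_of_Aa (hAa 0) η hη)
  exact ⟨mean_formula h, abs_formula (mean_formula h), RH, fun α β hα hαβ => PC_of_Nr (fun α β _ hαβ => Nr_all le_rfl hAa hαβ) α β hα hαβ,
    hd.1, hd.2⟩

theorem upper_of_mean (h : MeanFormula) : UpperMean := by
  intro a b ε ha hab hε
  filter_upwards [(h a b ha hab).eventually (eventually_lt_nhds (by linarith : b - a < b - a + ε))] with T h1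
  exact h1.le

theorem mean_of_all (h : UpperAll) : UpperMean := by
  intro a b ε ha hab hε
  have hb : 1 < b := lt_of_le_of_lt ha hab
  have hd : 0 < b - a := by linarith
  filter_upwards [h b (ε / (b - a)) hb (by positivity), eventually_gt_atTop 1] with T h1 hT
  have hi : IntervalIntegrable (R T) MeasureTheory.volume a b := L5helper12.PV.RT_ii T hT a b ha hab.le
  calc ∫ α in a..b, R T α ≤ ∫ _ in a..b, (1 + ε / (b - a)) :=
        intervalIntegral.integral_mono_on hab.le hi intervalIntegrable_const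
          fun α hα => h1 α ⟨ha.trans hα.1, hα.2⟩
    _ = b - a + ε := by
        rw [intervalIntegral.integral_const, smul_eq_mul]
        field_simp

/-- pair correlation, in the form of the library -/
lemma Nr_of_PC (h : PairCorrelation) (α β : ℝ) (hα : 0 < α) (hαβ : α < β) :
    Tendsto (fun T => Nr T α β) atTop (𝓝 (pr α β)) := by
  have h1 := h α β hα hαβ
  have hI := I_pos hα hαβ
  have h2 := h1.mul_const (∫ u in α..β, F u)
  rw [one_mul] at h2
  rw [pr_pos hα, ← int_gp]
  refine h2.congr fun T => ?_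
  rw [← N_Nr, ← div_div, div_mul_cancel₀ _ hI.ne']

/-- the converse: the Riemann hypothesis and pair correlation imply the upper half in the mean -/
theorem upper_of (RH : RiemannHypothesis) (h : PairCorrelation) : UpperMean :=
  Pool.Agent.L5helper10.RTV.upperR_of_upperV (Pool.Agent.L5helper12.PV.UpperV_of_T
    (Pool.Agent.L5helper12.CV.upperT_of RH (Pool.Agent.L5helper12.CV.Aa_of_Q1 RH (Nr_of_PC h))))

/-- **Main theorem** (unconditional). (1) The upper half of the mean square formula, in the mean over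
every interval of values of `α`, is equivalent to the conjunction of the Riemann hypothesis and the pair
correlation conjecture, and to the formula in the mean. (2) If the upper half holds for all `α`, the
formula holds for almost all `α`. (3) The upper half in the mean implies that almost all zeros are
simple. -/
theorem result : (UpperMean ↔ RiemannHypothesis ∧ PairCorrelation) ∧ (UpperMean ↔ MeanFormula) ∧
    (UpperAll → ∀ b : ℝ, 1 < b → Tendsto (fun T => ∫ α in (1 : ℝ)..b, |R T α - 1|) atTop (𝓝 0)) ∧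
    (UpperMean → Tendsto (fun T => (N T 0 0 : ℝ) / X T) atTop (𝓝 1) ∧
      Tendsto (fun T => ((simpleCritical T).ncard : ℝ) / Ntotal T) atTop (𝓝 1)) :=
  ⟨⟨fun h => ⟨(main h).2.2.1, (main h).2.2.2.1⟩, fun h => upper_of h.1 h.2⟩,
    ⟨fun h => (main h).1, upper_of_mean⟩,
    fun h b hb => (main (mean_of_all h)).2.1 b hb (fun ε hε => h b ε hb hε), fun h => (main h).2.2.2.2⟩

end Pool.Agent.Results.MP_2a816b_nt.UpperHalfImpliesRH
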