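import Pool.Agent.L5helper10.TV.Fin3

/-! Unconditional lower bounds of the conjectured order for the variance of primes in short
intervals, in every window of interval lengths. -/

open MeasureTheory

namespace Pool.Agent.Results.MP_2a816b_nt.WindowLower

/-- The weighted number of prime powers in the interval of length `H` centred at `x`. -/
noncomputable def psi (x H : ℝ) : ℝ :=
  ∑ᶠ n ∈ {n : ℕ | 1 ≤ n ∧ x - H / 2 ≤ n ∧ (n : ℝ) ≤ x + H / 2}, ArithmeticFunction.vonMangoldt n

/-- The mean square of the question over `H ≤ x ≤ X`. The range `x < H` is left out: for `x < H / 2`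
the interval of length `H` centred at `x` is cut off at `1`, and this range alone would contribute more
than `c H ^ 3 / X` to the mean square over `1 ≤ x ≤ X`. -/
noncomputable def J (X H : ℝ) : ℝ := (1 / X) * ∫ x in H..X, |psi x H - H| ^ 2

/-- The mean square at `X = T ^ α`, `H = T ^ (α - 1)`, so `X / H = T`, divided by `H log (X / H)`.
The question asks whether this ratio tends to `1`. -/
noncomputable def R (T α : ℝ) : ℝ := J (T ^ α) (T ^ (α - 1)) / (T ^ (α - 1) * Real.log T)

/-- For `0 < a ≤ 1`, every `B` and `ε > 0` there is `T₀` such that for all `T ≥ T₀` and all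
`1 + a ≤ β ≤ B` the integral of `(a - |α - β|) R T α` over `β - a ≤ α ≤ β + a` is at least
`2 a ^ 2 - a - a ^ 3 / 3 - ε`. The conjectured value of the integral is `a ^ 2 + o(1)`. -/
theorem result : ∀ a B ε : ℝ, 0 < a → a ≤ 1 → 0 < ε → ∃ T₀ : ℝ, ∀ T : ℝ, T₀ ≤ T →
    ∀ β : ℝ, 1 + a ≤ β → β ≤ B →
      2 * a ^ 2 - a - a ^ 3 / 3 - ε ≤ ∫ α in (β - a)..(β + a), (a - |α - β|) * R T α := by
  intro a B ε ha ha1 hε
  obtain ⟨T₀, h⟩ := Filter.eventually_atTop.1 (L5helper10.TV.window2 a B ε ha ha1 hε)
  exact ⟨T₀, h⟩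

end Pool.Agent.Results.MP_2a816b_nt.WindowLower
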